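import Pool.Graph.R_pool_sql_team_seeded_64922ed1.X306.MZ.Fin
import Pool.Graph.R_seed8.H343Z.Z
import Pool.Graph.R_seed8.Y926.TW.Main
import Pool.Graph.R_seed8.Y801.Z5S.Fin
import Pool.Agent.H15.V.Main

/-!
# Subtorsors through the period matrix of a mixed Tate motive over `ℤ`, without hypotheses on zeta values

Setting (as in the library file `SubtorsorsAndIrrationality` of this problem). Let `M` be an object of `MT(ℤ)`. The graded
Lie algebra `𝔫` of the unipotent part of its motivic Galois group is generated by the images `N_s` of the generators of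
degree `κ_s ∈ {3, 5, 7, …}`. In adapted bases and after the choice of a rational point the torsor `X(M)` of motivic periods is
the set of all matrices `periodMatrix d μ n = diag(μ^(d b)) exp(n)`, `μ ≠ 0`, `n ∈ 𝔫`, and the period matrix of `M` is the
point with `μ = 2πi` and `n = ell ∈ ∑ ζ(κ_s) N_s + [𝔫, 𝔫]`.

The de Rham-Betti form of the period conjecture says that a subtorsor `T` over `ℚ` which contains the period matrix is `X(M)`.
The library proves that this follows from the irrationality of the `ζ(κ_s)`. Here the irrationality theorems (for `ζ(3)`,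
`ζ(5)`, one of `ζ(7), …, ζ(13)`, the windows theorem with the ratio `16/5`, and the two thirds theorem) are put in, so that
there is no hypothesis. There is a Lie subalgebra `𝔪` of `𝔫` with `exp(𝔪) T ⊆ T` whose image in `𝔫 / [𝔫, 𝔫]` contains the
classes of

* the `N_s` of degree `3` and `5`,
* one of the `N_s` of degree `7, 9, 11, 13`,
* one of the `N_s` with `c + 2 ≤ κ_s < 16 c / 5`, for every odd `c`,
* at least `K` of the `N_s` with `b < κ_s ≤ c` if `2^132 (b + 1)² K³ log (K + 1) ≤ c²`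

(if all these degrees occur in `M`); and if `𝔫` is generated by the elements of degree `3` and `5` (precisely:
`N_s ∈ [𝔫, 𝔫]` whenever `κ_s ≥ 7`) then `T` contains `X(M)`. So the de Rham-Betti form of the period conjecture holds for
these motives, for instance for all motives whose weights lie in an interval of length less than `14`; their Lie algebra
is not abelian in general (there are such motives on which it is the free Lie algebra on `σ_3`, `σ_5`, truncated in any degree).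
-/

set_option autoImplicit false

open Matrix

noncomputable section

namespace Pool.Agent.Results.MP_e54452_nt.UnconditionalSubtorsors

variable {B S : Type} [Fintype B] [DecidableEq B] [Fintype S]

/-- `T` is a subtorsor over the rational numbers: it is the set of the invertible zeros of a set of polynomials with
rational coefficients, and closed under `x y⁻¹ z`. -/
structure IsTorsor (T : Set (Matrix B B ℂ)) : Prop where
  algebraic : ∃ I : Set (MvPolynomial (B × B) ℂ), (∀ p ∈ I, ∀ e, ∃ q : ℚ, p.coeff e = q) ∧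
    ∀ x : Matrix B B ℂ, x ∈ T ↔ IsUnit x ∧ ∀ p ∈ I, MvPolynomial.eval (fun b => x b.1 b.2) p = 0
  closed : ∀ x ∈ T, ∀ y ∈ T, ∀ z ∈ T, x * y⁻¹ * z ∈ T

/-- The Lie algebra `𝔫` generated by the matrices `N_s`: the smallest subspace which contains them and the commutators of
its elements. -/
def lieAlgebra (N : S → Matrix B B ℂ) : Submodule ℂ (Matrix B B ℂ) :=
  sInf {U | (∀ s, N s ∈ U) ∧ ∀ x ∈ U, ∀ y ∈ U, x * y - y * x ∈ U}

/-- The span `[𝔫, 𝔫]` of the commutators of elements of the Lie algebra. -/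
def commutators (N : S → Matrix B B ℂ) : Submodule ℂ (Matrix B B ℂ) :=
  Submodule.span ℂ {z | ∃ x ∈ lieAlgebra N, ∃ y ∈ lieAlgebra N, z = x * y - y * x}

/-- The exponential `∑ X ^ k / k!` for matrices `X` which raise the degree; the terms with `k > max d` vanish for them. -/
def nilExp (d : B → ℕ) (X : Matrix B B ℂ) : Matrix B B ℂ :=
  ∑ k ∈ Finset.range (Finset.univ.sup d + 1), ((k.factorial : ℂ))⁻¹ • X ^ k

/-- The matrix `diag(μ^(d b)) exp(n)`. -/
def periodMatrix (d : B → ℕ) (μ : ℂ) (n : Matrix B B ℂ) : Matrix B B ℂ :=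
  diagonal (fun b => μ ^ d b) * nilExp d n

/-- The torsor of motivic periods. -/
def motivicTorsor (d : B → ℕ) (N : S → Matrix B B ℂ) : Set (Matrix B B ℂ) :=
  {x | ∃ (μ : ℂ) (n : Matrix B B ℂ), μ ≠ 0 ∧ n ∈ lieAlgebra N ∧ x = periodMatrix d μ n}

/-- The zeta value `ζ(k) = ∑ 1 / n^k`, the sum over `n ≥ 1`. -/
def zeta (k : ℕ) : ℝ := ∑' n : ℕ, 1 / ((n : ℝ) + 1) ^ k

/-- The indices `s` such that the class of `N_s` in `𝔫 / [𝔫, 𝔫]` is the class of an element of `𝔪`. -/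
def hit (N : S → Matrix B B ℂ) (𝔪 : Submodule ℂ (Matrix B B ℂ)) : Set S :=
  {s | ∃ m ∈ 𝔪, m - N s ∈ commutators N}

/-! ### The irrationality theorems -/

theorem irr3 : Irrational (zeta 3) := by
  obtain ⟨j, hj, h1, h2, h3⟩ := Pool.Agent.H15.V.windows 1 (by decide)
  have : j = 3 := by omega
  subst this
  exact h3

theorem irr5 : Irrational (zeta 5) := by
  obtain ⟨c, hc, h⟩ := Pool.Agent.Y801.Z5S.measure83
  rintro ⟨q, hq⟩
  have h1 : c / (q.den : ℝ) ^ 83 ≤ |(∑' n : ℕ, 1 / ((n : ℝ) + 1) ^ 5) - (q.num : ℝ) / (q.den : ℕ)| :=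
    h q.num q.den q.den_pos
  have hd : (0 : ℝ) < q.den := by exact_mod_cast q.den_pos
  have h2 : (∑' n : ℕ, 1 / ((n : ℝ) + 1) ^ 5) - (q.num : ℝ) / (q.den : ℕ) = 0 := by
    have h3 : (q : ℝ) = (q.num : ℝ) / (q.den : ℝ) := by exact_mod_cast (Rat.num_div_den q).symm
    have h4 : (∑' n : ℕ, 1 / ((n : ℝ) + 1) ^ 5) = (q : ℝ) := hq.symm
    rw [h4, h3, sub_self]
  rw [h2, abs_zero] at h1
  exact absurd h1 (not_le.2 (by positivity))

theorem irr7 : ∃ j, (j = 7 ∨ j = 9 ∨ j = 11 ∨ j = 13) ∧ Irrational (zeta j) := by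
  rcases Pool.Agent.H343Z.Z_main with h | h | h | h
  · exact ⟨7, Or.inl rfl, h⟩
  · exact ⟨9, Or.inr (Or.inl rfl), h⟩
  · exact ⟨11, Or.inr (Or.inr (Or.inl rfl)), h⟩
  · exact ⟨13, Or.inr (Or.inr (Or.inr rfl)), h⟩

open Pool.Agent.X306.MT Pool.Agent.X306.MZ in
/-- The general statement: `𝔪` hits all `s` with `ζ(κ_s)` irrational. -/
theorem general (d : B → ℕ) (κ : S → ℕ) (hκ : Function.Injective κ) (hodd : ∀ s, Odd (κ s) ∧ 3 ≤ κ s)
    (N : S → Matrix B B ℂ) (hrat : ∀ s b b', ∃ q : ℚ, N s b b' = q) (hdeg : ∀ s b b', d b' ≠ d b + κ s → N s b b' = 0)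
    (ell : Matrix B B ℂ) (hell : ell ∈ lieAlgebra N) (hell1 : ell - ∑ s, (zeta (κ s) : ℂ) • N s ∈ commutators N)
    (T : Set (Matrix B B ℂ)) (hT : IsTorsor T) (hC : periodMatrix d (2 * Real.pi * Complex.I) ell ∈ T) :
    ∃ 𝔪 : Submodule ℂ (Matrix B B ℂ), 𝔪 ≤ lieAlgebra N ∧ (∀ x ∈ 𝔪, ∀ y ∈ 𝔪, x * y - y * x ∈ 𝔪) ∧
      (∀ m ∈ 𝔪, ∀ x ∈ T, nilExp d m * x ∈ T) ∧ (∀ s, Irrational (zeta (κ s)) → s ∈ hit N 𝔪) ∧
      ((∀ s, s ∈ hit N 𝔪) → 𝔪 = lieAlgebra N ∧ motivicTorsor d N ⊆ T) := by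
  have hT' : Pool.Agent.TH127.PT.IsSubtorsor Pool.Agent.X306.EM.QQ T := by
    obtain ⟨I, h1, h2⟩ := hT.algebraic
    refine ⟨fun x hx => ((h2 x).1 hx).1, hT.closed, I, fun p hp e => ?_, h2⟩
    obtain ⟨q, hq⟩ := h1 p hp e
    exact Pool.Agent.X306.EM.mem_QQ.2 ⟨q, hq.symm⟩
  have hA : ∀ s, InK Pool.Agent.X306.EM.QQ (N s) := by
    intro s b b'
    obtain ⟨q, hq⟩ := hrat s b b'
    exact Pool.Agent.X306.EM.mem_QQ.2 ⟨q, hq.symm⟩
  have hlie : lieAlgebra N = nn N := lieGen_eq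
  have hcom : commutators N = FF N 1 := by
    rw [← cmm_eq]
    unfold commutators cmm
    rw [hlie]
  have hpos : Pos d N := by
    intro s b b' h
    exact hdeg s b b' (by have := (hodd s).2; omega)
  have hw : (2 * Real.pi * Complex.I : ℂ) ≠ 0 := Complex.two_pi_I_ne_zero
  have hwt := trans_w Pool.Agent.X306.EM.QQ_le
  rw [hlie] at hell
  rw [hcom] at hell1
  have hgen : ∀ s, Irrational (zeta (κ s)) → ∃ m ∈ mmT T N, m - N s ∈ FF N 1 := fun s hs =>
    gen_mem hT' hA hpos hdeg hw hell hC hwt (z := fun s => (zeta (κ s) : ℂ)) hell1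
      (fun s => by have := (hodd s).2; omega) s (ind_of_irr hκ (fun s => zeta (κ s)) s (hodd s).1 hs)
  refine ⟨mmT T N, ?_, fun x hx y hy => mmT_br hx hy, ?_, ?_, ?_⟩
  · rw [hlie]
    exact fun x hx => hx.1
  · intro m hm x hx
    exact ex_T hT' (nn_pos hpos hm.1) hm.2 hx
  · intro s hs
    unfold hit
    rw [hcom]
    exact hgen s hs
  · intro hall
    have h0 : ∀ s, ∃ m ∈ mmT T N, m - N s ∈ FF N 1 := by
      intro s
      have := hall s
      unfold hit at this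
      rw [hcom] at this
      exact this
    have h1 := mm_full hT' hA hpos hdeg hw hell hC h0
    refine ⟨h1.trans hlie.symm, ?_⟩
    rintro _ ⟨μ, n, hμ, hn, rfl⟩
    rw [hlie] at hn
    exact torsor_full hT' hA hpos hdeg hw hell hC hwt h1 hμ hn

/-- **Subtorsors through the period matrix of a mixed Tate motive over `ℤ`, unconditionally.** `d` are the degrees of the
basis, `N_s` are matrices with rational entries which raise the degree by `κ_s`, where the `κ_s ≥ 3` are pairwise different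
odd numbers, and `ell ∈ ∑ ζ(κ_s) N_s + [𝔫, 𝔫]`. Let `T` be a subtorsor over `ℚ` which contains
`periodMatrix d (2πi) ell`. -/
theorem result (d : B → ℕ) (κ : S → ℕ) (hκ : Function.Injective κ) (hodd : ∀ s, Odd (κ s) ∧ 3 ≤ κ s)
    (N : S → Matrix B B ℂ) (hrat : ∀ s b b', ∃ q : ℚ, N s b b' = q) (hdeg : ∀ s b b', d b' ≠ d b + κ s → N s b b' = 0)
    (ell : Matrix B B ℂ) (hell : ell ∈ lieAlgebra N) (hell1 : ell - ∑ s, (zeta (κ s) : ℂ) • N s ∈ commutators N)
    (T : Set (Matrix B B ℂ)) (hT : IsTorsor T) (hC : periodMatrix d (2 * Real.pi * Complex.I) ell ∈ T) :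
    ∃ 𝔪 : Submodule ℂ (Matrix B B ℂ), 𝔪 ≤ lieAlgebra N ∧ (∀ x ∈ 𝔪, ∀ y ∈ 𝔪, x * y - y * x ∈ 𝔪) ∧
      (∀ m ∈ 𝔪, ∀ x ∈ T, nilExp d m * x ∈ T) ∧
      -- the degrees 3 and 5
      (∀ s, κ s = 3 ∨ κ s = 5 → s ∈ hit N 𝔪) ∧
      -- the degrees 7, 9, 11, 13
      ((∀ j, j = 7 ∨ j = 9 ∨ j = 11 ∨ j = 13 → j ∈ Set.range κ) → ∃ s ∈ hit N 𝔪, 7 ≤ κ s ∧ κ s ≤ 13) ∧
      -- windows
      (∀ c : ℕ, Odd c → (∀ j, Odd j → c + 2 ≤ j → 5 * j < 16 * c → j ∈ Set.range κ) →
        ∃ s ∈ hit N 𝔪, c + 2 ≤ κ s ∧ 5 * κ s < 16 * c) ∧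
      -- many degrees
      (∀ b K c : ℕ, 1 ≤ b → 1 ≤ K → (2 : ℝ) ^ 132 * ((b : ℝ) + 1) ^ 2 * (K : ℝ) ^ 3 * Real.log (K + 1) ≤ (c : ℝ) ^ 2 →
        (∀ j, Odd j → b < j → j ≤ c → j ∈ Set.range κ) →
        K ≤ {s | s ∈ hit N 𝔪 ∧ b < κ s ∧ κ s ≤ c}.ncard) ∧
      -- the whole torsor
      ((∀ s, 7 ≤ κ s → N s ∈ commutators N) → motivicTorsor d N ⊆ T) := by
  obtain ⟨𝔪, h1, h2, h3, h4, h5⟩ := general d κ hκ hodd N hrat hdeg ell hell hell1 T hT hC
  have h0 : ∀ s, N s ∈ commutators N → s ∈ hit N 𝔪 := by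
    intro s hs
    refine ⟨0, 𝔪.zero_mem, ?_⟩
    rw [zero_sub]
    exact (commutators N).neg_mem hs
  have hfull : (∀ s, Irrational (zeta (κ s)) ∨ N s ∈ commutators N) → motivicTorsor d N ⊆ T := by
    intro h
    exact (h5 fun s => (h s).elim (h4 s) (h0 s)).2
  refine ⟨𝔪, h1, h2, h3, ?_, ?_, ?_, ?_, ?_⟩
  · rintro s (hs | hs)
    · exact h4 s (by rw [hs]; exact irr3)
    · exact h4 s (by rw [hs]; exact irr5)
  · intro hr
    obtain ⟨j, hj, hirr⟩ := irr7
    obtain ⟨s, rfl⟩ := hr j hj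
    exact ⟨s, h4 s hirr, by omega, by omega⟩
  · intro c hc hr
    obtain ⟨j, hj1, hj2, hj3, hj4⟩ := Pool.Agent.H15.V.windows c hc
    obtain ⟨s, rfl⟩ := hr j hj1 hj2 hj3
    exact ⟨s, h4 s hj4, hj2, hj3⟩
  · intro b K c hb hK hc hr
    have hc' : (2 : ℝ) ^ (132 * 1) * ((b : ℝ) + 1) ^ 2 * (K : ℝ) ^ 3 * Real.log (K + 1) ≤ (c : ℝ) ^ 2 := by
      rw [mul_one]
      exact hc
    have h6 := (Pool.Agent.Y926.TW.main b K c 1 hK le_rfl hc').1
    refine h6.trans ?_
    have hsub : {j : ℕ | b < j ∧ j ≤ c ∧ Odd j ∧ Irrational (∑' n : ℕ, 1 / ((n : ℝ) + 1) ^ j)} ⊆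
        κ '' {s | s ∈ hit N 𝔪 ∧ b < κ s ∧ κ s ≤ c} := by
      rintro j ⟨hj1, hj2, hj3, hj4⟩
      obtain ⟨s, rfl⟩ := hr j hj3 hj1 hj2
      exact ⟨s, ⟨h4 s hj4, hj1, hj2⟩, rfl⟩
    exact (Set.ncard_le_ncard hsub (Set.toFinite _)).trans (Set.ncard_image_le (Set.toFinite _))
  · intro h
    refine hfull fun s => ?_
    by_cases hs : 7 ≤ κ s
    · exact Or.inr (h s hs)
    · left
      obtain ⟨ho, h3'⟩ := hodd s
      have : κ s = 3 ∨ κ s = 5 := by
        obtain ⟨t, ht⟩ := ho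
        omega
      rcases this with h | h
      · rw [h]; exact irr3
      · rw [h]; exact irr5

end Pool.Agent.Results.MP_e54452_nt.UnconditionalSubtorsors
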